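import Pool.Agent.H72.UZ.TarW
import Pool.Agent.H47.SE.BS

/-!
# MP_f6fd33_lc, row F5: unions of increasing `κ`-chains of closed sets of labels
-/

set_option linter.unusedVariables false

open Ordinal Order Set
open scoped ZFSet

namespace SE.UZ

open SF SE.BS47

namespace F5

/-- the ordinal of the first `app R η` which contains `i` -/
noncomputable def mi (κ R i : V) : V := κ.sep fun η => i ∉ app R η

theorem tm_mi : Tm ZFm (fun _ v => mi (v 0) (v 1) (v 2)) := by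
  refine (Tm.sep (f := fun _ v => v 0) (R := fun _ v => ¬ v 3 ∈ app (v 2) (v 0)) ?_
    (Tm.var 0)).congr fun M k v hv => rfl
  exact (Dfb.mem (Tm.var 3) (Tm.app (Tm.var 2) (Tm.var 0))).not

theorem rmi_mem {M : V → Prop} (k : ZFm M) {x κ R : V} (h1 : M x) (h2 : M κ) (h3 : M R) :
    M (resS x fun i => mi κ R i) := by
  have h := (Tm.resS (Tm.var 0) (g := fun _ v => mi (v 2) (v 3) (v 0))
    (Tm.at3 (F := fun _ a b c => mi a b c) tm_mi (Tm.var 2) (Tm.var 3) (Tm.var 0))).1 M k _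
    (in3 k h1 h2 h3)
  exact h

theorem app_mem' {M : V → Prop} (k : ZFm M) {R x : V} (h1 : M R) (h2 : M x) : M (app R x) := by
  have h := (Tm.app (Tm.var 0) (Tm.var 1)).1 M k (cons R (cons x fun _ => ∅))
    (In.cons (In.cons (fun _ => k.mempty) h2) h1)
  exact h

end F5

open F5

theorem pf_F5 (hAB : T_AB) (hAC : T_AC) (hAD : T_AD) (hAF : T_AF) (hAG : T_AG) (hBA : T_BA)
    (hBBb : T_BBb) (hBC : T_BC) (hBD : T_BD) (hBE : T_BE) (hBJ : T_BJ) (hBK : T_BK) (hBL : T_BL)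
    (hBM : T_BM) (hBN : T_BN) (hBO : T_BO) (hBQ : T_BQ) (hBR : T_BR) : T_F5 := by
  intro D κ hA R hNR hR hmono Λ hΛ
  have hD := hA.ok
  have k : ZFm D.N := hD.zfc.toZFCm.toZFm
  obtain ⟨ab1, ab2, ab3⟩ := hAB
  obtain ⟨ac1, ac2, -, -, -, ac6⟩ := hAC D.N k
  obtain ⟨j1, j2, j3, j4, j5⟩ := hBJ D hD
  obtain ⟨-, br2, -, -, -, -, sqH, -, -, -⟩ := hBR D hD
  have hNκ : D.N κ := j3 κ hA.kH
  have hmem : ∀ i, i ∈ Λ ↔ ∃ ξ ∈ κ, i ∈ app R ξ := by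
    intro i
    rw [hΛ, ZFSet.mem_sUnion]
    constructor
    · rintro ⟨z, hz, hi⟩
      obtain ⟨ξ, hξ, rfl⟩ := mem_imS.1 hz
      exact ⟨ξ, hξ, hi⟩
    · rintro ⟨ξ, hξ, hi⟩
      exact ⟨_, mem_imS.2 ⟨ξ, hξ, rfl⟩, hi⟩
  have hΛH : Λ ∈ D.H := by
    have hNf : D.N (resS κ (app R)) := by
      have h := (Tm.resS (Tm.var 0) (g := fun _ v => app (v 2) (v 0))
        (Tm.app (Tm.var 2) (Tm.var 0))).1 D.N k (cons κ (cons R fun _ => ∅))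
        (In.cons (In.cons (fun _ => k.mempty) hNR) hNκ)
      exact h
    have h1 := (br2 (resS κ (app R)) κ hNf (svl_resS _ _) (dm_resS _ _) hA.kH (by
      intro z hz
      obtain ⟨ξ, hξ, rfl⟩ := mem_rg_resS.1 hz
      exact (hR ξ hξ).1)).1
    have h2 : Λ = (⋃₀ (rg (resS κ (app R))) : ZFSet) := by
      ext i
      rw [hmem, ZFSet.mem_sUnion]
      constructor
      · rintro ⟨ξ, hξ, hi⟩
        exact ⟨_, mem_rg_resS.2 ⟨ξ, hξ, rfl⟩, hi⟩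
      · rintro ⟨z, hz, hi⟩
        obtain ⟨ξ, hξ, rfl⟩ := mem_rg_resS.1 hz
        exact ⟨ξ, hξ, hi⟩
    rw [h2]
    exact hD.zfH.union _ h1
  have hΛc : Cld D.L Λ := by
    rw [hΛ]
    refine hBA.2.2.2.2.2.1 D.L _ ?_
    intro z hz
    obtain ⟨ξ, hξ, rfl⟩ := mem_imS.1 hz
    exact (hR ξ hξ).2
  have hNΛ : D.N Λ := j3 Λ hΛH
  obtain ⟨α, hα⟩ := hA.ord
  -- countable sets
  have hcty : ∀ x, Ctbl D.N x → x ⊆ Λ → ∃ ξ ∈ κ, x ⊆ app R ξ := by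
    intro x hx hxΛ
    have hNx : D.N x := ac1 x hx
    have htrans : ∀ ξ ∈ κ, ∀ η ∈ ξ, η ∈ κ := by
      intro ξ hξ η hη
      exact ((isOrd_iff κ).1 hA.ord).1.mem_trans hη hξ
    have hmono' : ∀ ξ ∈ κ, ∀ η ∈ ξ, app R η ⊆ app R ξ := fun ξ hξ η hη =>
      hmono η (htrans ξ hξ η hη) ξ hξ hη
    have hmi : ∀ i ∈ x, mi κ R i ∈ κ := by
      intro i hi
      obtain ⟨ξ, hξ, hiξ⟩ := (hmem i).1 (hxΛ hi)
      have h1 : IsOrd (mi κ R i) := by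
        rw [isOrd_iff]
        constructor
        · intro η hη ζ hζ
          obtain ⟨h2, h3⟩ := ZFSet.mem_sep.1 hη
          exact ZFSet.mem_sep.2 ⟨htrans η h2 ζ hζ, fun h => h3 (hmono' η h2 ζ hζ h)⟩
        · intro η hη
          exact ((isOrd_iff κ).1 hA.ord).2 η (ZFSet.mem_sep.1 hη).1
      obtain ⟨β, hβ⟩ := h1
      have h2 : ξ ∉ mi κ R i := fun h => (ZFSet.mem_sep.1 h).2 hiξ
      have h3 : ¬ α ≤ β := by
        intro h
        apply h2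
        rw [hβ]
        exact toZFSet_subset_toZFSet_iff.2 h (by rw [← hα]; exact hξ)
      rw [hβ, hα]
      exact toZFSet_mem_toZFSet_iff.2 (not_le.1 h3)
    have hC : Ctbl D.N (rg (resS x fun i => mi κ R i)) :=
      ac6 x _ (rmi_mem k hNx hNκ hNR) (svl_resS _ _) hx (by rw [dm_resS])
    obtain ⟨γ, hγ, hγx⟩ := hA.bd _ hC (by
      intro z hz
      obtain ⟨i, hi, rfl⟩ := mem_rg_resS.1 hz
      exact hmi i hi)
    refine ⟨γ, hγ, ?_⟩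
    intro i hi
    by_contra hcon
    have h1 : γ ∈ mi κ R i := ZFSet.mem_sep.2 ⟨hγ, hcon⟩
    have h2 : mi κ R i ∈ γ := hγx (mem_rg_resS.2 ⟨i, hi, rfl⟩)
    exact ZFSet.mem_asymm h1 h2
  have hTrΛ : Tr Λ := (hBA.2.2.2.2.2.2 D.L Λ hΛc).1
  have hNsq : D.N sq := j3 sq sqH
  have hNP : D.N (D.P Λ) := (j4 Λ hNΛ).1
  have hNPR : D.N (D.R Λ) := (j4 Λ hNΛ).2
  obtain ⟨bc1, -, -, bc4, -⟩ := hBC
  obtain ⟨bd1, -, -, -, bd5, -, bd7, -⟩ := hBD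
  have hdmP : ∀ p ∈ D.P Λ, dm p ⊆ Λ ∧ (dm p : Set V).Finite := by
    intro p hp
    obtain ⟨h1, h2, -⟩ := (bc4 D.L Λ p).1 hp
    exact ⟨h2, (bc1 p h1).2.1⟩
  -- names
  have hnam : ∀ Y, D.N Y → Nam D.L Λ Y → ∃ ξ ∈ κ, ∃ Y', D.N Y' ∧ Nam D.L (app R ξ) Y' ∧
      ∀ G, D.Gn Λ G → ev G Y' = ev G Y := by
    intro Y hNY hY
    have hNF : D.N (FS (D.P Λ) Y sq) := FS_mem k hNP hNY hNsq
    have hFn : ∀ n ∈ om, app (FS (D.P Λ) Y sq) n = Fn n (D.P Λ) Y sq := fun n hn =>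
      app_resS hn
    obtain ⟨X0, x1, x2, x3⟩ := hBQ D hD Λ hNΛ hΛc (FS (D.P Λ) Y sq) hNF (by
      intro n hn q hq
      rw [hFn n hn] at hq
      exact (ZFSet.mem_sep.1 hq).1)
    have hNX0 : D.N X0 := ac1 X0 x1
    have hC1 : Ctbl D.N (rg (resS X0 fun p => dm p)) :=
      ac6 X0 _ (resdm_mem k hNX0) (svl_resS _ _) x1 (by rw [dm_resS])
    have hC2 : Ctbl D.N (⋃₀ (rg (resS X0 fun p => dm p)) : ZFSet) := by
      refine hAD D.N hD.zfc.toZFCm _ hC1 ?_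
      intro x hx
      obtain ⟨p, hp, rfl⟩ := mem_rg_resS.1 hx
      obtain ⟨h1, h2⟩ := hdmP p (x2 hp)
      exact (ab3 D.N k Λ (dm p) hNΛ h1 h2).2
    obtain ⟨ξ, hξ, hsub⟩ := hcty _ hC2 (by
      intro i hi
      obtain ⟨z, hz, hiz⟩ := ZFSet.mem_sUnion.1 hi
      obtain ⟨p, hp, rfl⟩ := mem_rg_resS.1 hz
      exact (hdmP p (x2 hp)).1 hiz)
    set s : V := app R ξ with hs
    have s1 : s ∈ D.H := (hR ξ hξ).1
    have s2 : Cld D.L s := (hR ξ hξ).2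
    have hNs : D.N s := j3 s s1
    have s3 : s ⊆ Λ := fun i hi => (hmem i).2 ⟨ξ, hξ, hi⟩
    have hTs : Tr s := (hBA.2.2.2.2.2.2 D.L s s2).1
    -- the value is computed from the restriction
    have key : ∀ G, D.Gn Λ G → ev (gs G s) Y = ev G Y := by
      intro G hG
      obtain ⟨-, j7⟩ := j5 Λ hNΛ hΛc
      obtain ⟨⟨w1, w2, w3, w4, w5⟩, ⟨f1, f2, f3, f4, f5⟩, dens⟩ := j7 G hG
      obtain ⟨l1, l2, l3, l4, -⟩ := (hBL D hD Λ G hNΛ hΛc hG).2 s hNs s3 hTs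
      obtain ⟨yR, -, bk3, -⟩ := (hBK D hD Λ G hNΛ hΛc hG).1 Λ Y hNΛ (fun _ h => h) hTrΛ hNY hY
      apply ZFSet.ext
      intro z
      constructor
      · intro hz
        obtain ⟨b', hb', hz'⟩ := ZFSet.mem_sUnion.1 hz
        obtain ⟨hb1, q, hq, hqb⟩ := ZFSet.mem_sep.1 hb'
        exact (bk3 b' hb1).2 ⟨q, l2 hq, hqb⟩ hz'
      · intro hz
        obtain ⟨a, ha, b, hb, rfl⟩ := ZFSet.mem_prod.1 (yR.1 hz)
        obtain ⟨m, rfl⟩ := mem_om.1 ha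
        have hn : nS (m + 1) ∈ om := mem_om.2 ⟨m + 1, rfl⟩
        obtain ⟨r, hr1, hr2, -⟩ := dens (Xd (D.P Λ) X0 (Fn (nS (m + 1)) (D.P Λ) Y sq) (D.R Λ)) ∅
          (Xd_mem k hNP hNX0 (by
            have := (Tm.app (Tm.var 0) (Tm.nS (m + 1))).1 D.N k _ (in1 k hNF)
            have h2 : D.N (app (FS (D.P Λ) Y sq) (nS (m + 1))) := this
            rwa [hFn _ hn] at h2) hNPR) f2 (by
            intro q hq _
            obtain ⟨q', hq', hle, b', hb', hb''⟩ := hY.den (nS (m + 1)) hn q hq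
            obtain ⟨q1, -, b1, hb1, he⟩ := hY.sub _ hb''
            obtain ⟨rfl, rfl⟩ := ZFSet.pair_injective he
            have hq'F : q' ∈ app (FS (D.P Λ) Y sq) (nS (m + 1)) := by
              rw [hFn _ hn]
              exact ZFSet.mem_sep.2 ⟨hq', _, hb1, hb', hb''⟩
            obtain ⟨q2, hq2, hq2', hcmp⟩ := x3 _ hn q' hq'F
            rw [hFn _ hn] at hq2'
            obtain ⟨e1, e2, e3, -⟩ := (hBE D.L Λ q' q2 hΛc hq' (x2 hq2)).1 hcmp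
            refine ⟨jn q2 q', ZFSet.mem_sep.2 ⟨e1, q2, hq2, hq2', ?_⟩, e1, ?_⟩
            · exact (bd7 D.L Λ _ _).2 ⟨e1, x2 hq2, e2⟩
            · exact bd5 D.L Λ q q' _ hq hq' e1 e3 hle)
        obtain ⟨hrP, q, hqX, hqF, hrq⟩ := ZFSet.mem_sep.1 hr2
        obtain ⟨-, hqP, hle⟩ := (bd7 D.L Λ _ _).1 hrq
        have hqG : q ∈ G := f3 r hr1 q hqP hle
        obtain ⟨-, b', hb', hdm, hqb⟩ := ZFSet.mem_sep.1 hqF
        have hsub' : b' ⊆ ev G Y := (bk3 b' hb').2 ⟨q, hqG, hqb⟩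
        obtain ⟨n', hn'⟩ := (hAF.1 b').1 hb'
        have hd' : dm b' = nS n' := (hAF.2.2.2.2.1 n' b' hn').2.2.1
        have hnn : n' = m + 1 := nS_inj.1 (hd'.symm.trans hdm)
        have hrs : b' = rs (ev G Y) (nS n') := (hAG.2.1 (ev G Y) n' b' yR hn').1 hsub'
        refine ZFSet.mem_sUnion.2 ⟨b', ZFSet.mem_sep.2 ⟨hb', q, ?_, hqb⟩, ?_⟩
        · refine (l4 q).2 ⟨hqG, ?_⟩
          intro i hi
          exact hsub (ZFSet.mem_sUnion.2 ⟨dm q, mem_rg_resS.2 ⟨q, hqX, rfl⟩, hi⟩)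
        · rw [hrs, hnn]
          refine ZFSet.mem_sep.2 ⟨hz, ?_⟩
          rw [fst_pair, nS_succ]
          exact ZFSet.mem_insert_iff.2 (Or.inl rfl)
    have tev : Tm ZFm (fun _ v => ev (v 0) (v 1)) := hBBb.2.2.2.2.1
    have tev' : Tm ZFm (fun _ v => ev (v 1) (v 2)) :=
      Tm.at2 (F := fun _ a b => ev a b) tev (Tm.var 1) (Tm.var 2)
    obtain ⟨Y', y1, y2, y3⟩ := (hBN D hD s hNs s2).2 (fun _ v => v 0 = ev (v 1) (v 2))
      (Dfb.eq (Tm.var 0) tev') (cons Y fun _ => ∅) (In.cons (fun _ => k.mempty) hNY) (by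
        intro G0 hG0
        obtain ⟨⟨v1, v2, v3, -, -⟩, ⟨g1, g2, g3, g4, g5⟩, -⟩ := (j5 s hNs s2).2 G0 hG0
        obtain ⟨G, hG, -, hG2⟩ := hBM D hD s Λ G0 ∅ hNs hNΛ hΛc s3 hTs hG0
          (bd1 D.L Λ) (by
            have h0 : rst s ∅ = ∅ := by
              apply ZFSet.ext
              intro z
              constructor
              · intro hz
                exact (ZFSet.mem_sep.1 hz).1
              · intro hz
                exact absurd hz (ZFSet.notMem_empty z)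
            rw [h0]
            exact g2)
        have hke := key G hG
        rw [hG2] at hke
        obtain ⟨yR, -, -, -⟩ := (hBK D hD Λ G hNΛ hΛc hG).1 Λ Y hNΛ (fun _ h => h) hTrΛ hNY hY
        refine ⟨ev G0 Y, ?_, by rw [hke]; exact yR, fun y _ _ => Iff.rfl⟩
        exact tev.1 (D.W G0) v1.toZFCm.toZFm (cons G0 (cons Y fun _ => ∅))
          (In.cons (In.cons (fun _ => v1.toZFCm.toZFm.mempty) (v2 _ hNY)) v3))
    refine ⟨ξ, hξ, Y', y1, y2, ?_⟩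
    intro G hG
    obtain ⟨l1, -⟩ := (hBL D hD Λ G hNΛ hΛc hG).2 s hNs s3 hTs
    have h1 : ev (gs G s) Y' = ev (gs G s) Y := y3 (gs G s) l1
    have h2 : ev (gs G s) Y' = ev G Y' :=
      ((hBK D hD Λ G hNΛ hΛc hG).1 s Y' hNs s3 hTs y1 y2).2.2.2.2.2 s (fun _ h => h)
    rw [← h2, h1, key G hG]
  refine ⟨hΛH, hΛc, hmem, hcty, hnam, ?_⟩
  intro G hG x hx hxR
  obtain ⟨τ, hτ, rfl⟩ := hx
  obtain ⟨Y, hNY, hY, hY'⟩ := (hBO D hD Λ hNΛ hΛc).1 τ hτ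
  have hev : ev G Y = val G τ := (hY' G hG).1 hxR
  obtain ⟨ξ, hξ, Y', y1, y2, y3⟩ := hnam Y hNY hY
  refine ⟨ξ, hξ, ?_, hxR⟩
  have s1 : app R ξ ∈ D.H := (hR ξ hξ).1
  have s2 : Cld D.L (app R ξ) := (hR ξ hξ).2
  have hNs : D.N (app R ξ) := j3 _ s1
  have s3 : app R ξ ⊆ Λ := fun i hi => (hmem i).2 ⟨ξ, hξ, hi⟩
  have hTs : Tr (app R ξ) := (hBA.2.2.2.2.2.2 D.L _ s2).1
  obtain ⟨l1, -⟩ := (hBL D hD Λ G hNΛ hΛc hG).2 _ hNs s3 hTs
  have h2 : ev (gs G (app R ξ)) Y' = ev G Y' :=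
    ((hBK D hD Λ G hNΛ hΛc hG).1 _ Y' hNs s3 hTs y1 y2).2.2.2.2.2 _ (fun _ h => h)
  have h3 := ((hBK D hD _ _ hNs s2 l1).1 _ Y' hNs (fun _ h => h) hTs y1 y2).2.1
  rw [h2, y3 G hG, hev] at h3
  exact h3

end SE.UZ
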