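import Pool.Agent.H45.UZ.TarF

/-!
# MP_f6fd33_lc, row FR1: closure properties of the class of objects of the free system
-/

set_option linter.unusedVariables false

open Ordinal Order Set
open scoped ZFSet

namespace SE.UZ

open SF

theorem pf_FR1 (qrn : T_QRN) (qi1 : T_QI1) (qi3 : T_QI3) (bm : T_BM) (bl : T_BL) (bj : T_BJ)
    (ba : T_BA) (bd : T_BD) : T_FR1 := by
  intro D κ hA b hb
  have hD := hA.ok
  have uN : ∀ B ∈ b.Ob, D.N (b.u B) := fun B h => (bj D hD).2.2.1 _ (hb.cs B h).h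
  have uC : ∀ B ∈ b.Ob, Cld D.L (b.u B) := fun B h => (hb.cs B h).c
  have uT : ∀ B ∈ b.Ob, Tr (b.u B) := fun B h => (ba.2.2.2.2.2.2 D.L _ (uC B h)).1
  have gf : ∀ A B, b.Le A B → ∀ G, D.Gn (b.u B) G → D.Gn (b.u A) (gs G (b.u A)) := by
    intro A B h G hG
    obtain ⟨h1, h2, h3⟩ := hb.leO A B h
    exact ((bl D hD _ G (uN _ h2) (uC _ h2) hG).2 _ (uN _ h1) h3 (uT _ h1)).1
  -- values of labels of faces
  have vf : ∀ A B, b.Le A B → ∀ G, D.Gn (b.u B) G → ∀ i ∈ b.u A,
      prm (gs G (b.u A)) i = prm G i ∧ ev (gs G (b.u A)) (lZ i) = ev G (lZ i) ∧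
      RR D (b.u A) G (ev G (lZ i)) := by
    intro A B h G hG i hi
    obtain ⟨h1, h2, h3⟩ := hb.leO A B h
    have q := qrn D hD _ G _ (uN _ h2) (uC _ h2) hG (uN _ h1) h3 (uT _ h1)
    have q1 := q.2.2.2.2.2.2.2.2.2.2.2.2.2.2 i hi
    exact ⟨q1.1, q1.2.1, (q.2.2.2.2.2.2.2.2.2.1 i hi).1⟩
  have pf : ∀ A B, b.Le A B → ∀ G, D.Gn (b.u B) G → ∀ i ∈ b.u B,
      RR D (b.u A) G (prm G i) → i ∈ b.u A := by
    intro A B h G hG i hi hr
    obtain ⟨h1, h2, h3⟩ := hb.leO A B h
    have q := qrn D hD _ G _ (uN _ h2) (uC _ h2) hG (uN _ h1) h3 (uT _ h1)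
    exact q.2.2.2.2.2.2.2.2.2.2.2.1 i hi hr
  have nkl : ∀ k, Kl b.l k → kd k ≠ nS b.l ∧ kd k ≠ nS (b.l + 1) := by
    rintro k ⟨e, he, hk⟩
    constructor
    · intro h
      have := nS_inj.1 (hk.symm.trans h)
      omega
    · intro h
      have := nS_inj.1 (hk.symm.trans h)
      omega
  -- objects are closed under images, given a face condition
  have img : ∀ π B ρ', b.Of D B → Isl D b.l b.S π (b.u B) ρ' →
      (∀ k ∈ b.u B, kd (app π k) = nS (b.l + 1) → kd k = nS (b.l + 1)) → b.Of D (b.T π B) := by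
    intro π B ρ' hO hi hk1
    have hsl : Sl b.l b.S := fun e he => by
      have := hb.sl e he
      exact ⟨this.1, by omega⟩
    obtain ⟨t1, t2, -⟩ := hb.tr B hO.1 π ρ' hi
    refine ⟨t1, ?_⟩
    rw [t2]
    intro i' hi' k' hk' ki' kk' G' hG' hval
    obtain ⟨⟨-, -, -, -, q1, -, q2⟩, q3, q4, -⟩ := qi1 D hD b.l b.S π _ _ hsl hi
    obtain ⟨g1, -, g3, -⟩ := qi3 D hD b.l b.S (inv π) _ _ hsl q2 G' hG' _ rfl
    rw [q1] at g3
    set G := gi D (inv π) (b.u B) G' with hG
    obtain ⟨i1, i2⟩ := q4 i' hi'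
    obtain ⟨k1, k2⟩ := q4 k' hk'
    set i := app (inv π) i'
    set k := app (inv π) k'
    obtain ⟨-, -, -, -, f5, -⟩ := qi3 D hD b.l b.S π _ _ hsl hi G g1 G' g3.symm
    have e1 := (f5 i i1).2.1
    have e2 := (f5 k k1).2.2
    rw [i2] at e1
    rw [k2] at e2
    have ki : kd i = nS b.l := by
      have := hi.k i i1 b.l hb.l3 le_rfl
      rw [i2] at this
      exact this.2 ki'
    have kk : kd k = nS (b.l + 1) := hk1 k k1 (by rw [k2]; exact kk')
    exact hO.2 i i1 k k1 ki kk G g1 (by rw [← e1, ← e2]; exact hval)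
  refine ⟨?_, ?_, ?_, ?_, ?_⟩
  · -- faces
    intro C B hle hO
    obtain ⟨h1, h2, h3⟩ := hb.leO C B hle
    refine ⟨h1, ?_⟩
    intro i hi k hk ki kk G hG hval
    obtain ⟨G', g1, -, g3⟩ := bm D hD _ _ G ∅ (uN _ h1) (uN _ h2) (uC _ h2) h3 (uT _ h1) hG
      (bd.1 D.L _) (by
        have h0 : rst (b.u C) ∅ = ∅ := by
          apply ZFSet.ext
          intro z
          constructor
          · intro hz
            exact (ZFSet.mem_sep.1 hz).1
          · intro hz
            exact absurd hz (ZFSet.notMem_empty z)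
        rw [h0]
        exact ((bj D hD).2.2.2.2 _ (uN _ h1) (uC _ h1)).2 G hG |>.2.1.2.1)
    have v1 := vf C B hle G' g1 i hi
    have v2 := vf C B hle G' g1 k hk
    rw [g3] at v1 v2
    exact hO.2 i (h3 hi) k (h3 hk) ki kk G' g1 (by rw [← v1.2.1, ← v2.1]; exact hval)
  · -- bounds
    intro I F hag hO B hB hle hnew
    refine ⟨hB, ?_⟩
    intro i hi k hk ki kk G hG hval
    obtain ⟨v, hv, hiv⟩ : ∃ v ∈ I, i ∈ b.u (app F v) := by
      by_contra hcon
      push Not at hcon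
      exact (nkl i (hnew i hi hcon)).1 ki
    have v1 := vf _ _ (hle v hv) G hG i hiv
    have hkv : k ∈ b.u (app F v) := pf _ _ (hle v hv) G hG k hk (by rw [← hval]; exact v1.2.2)
    have v2 := vf _ _ (hle v hv) G hG k hkv
    exact (hO v hv).2 i hiv k hkv ki kk _ (gf _ _ (hle v hv) G hG)
      (by rw [v1.2.1, v2.1]; exact hval)
  · -- one new label
    intro B B' i hO hle hi hiB hlS hnew hval0
    obtain ⟨h1, h2, h3⟩ := hb.leO B B' hle
    refine ⟨h2, ?_⟩
    intro i' hi' k' hk' ki kk G hG hval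
    by_cases hki : k' = i
    · have hii : i' ≠ i := by
        rintro rfl
        rw [hki, ki] at kk
        have := nS_inj.1 kk
        omega
      have hi'B : i' ∈ b.u B := by
        by_contra hcon
        exact (nkl i' (hnew i' hi' hcon hii)).1 ki
      have v1 := vf _ _ hle G hG i' hi'B
      exact hiB (pf _ _ hle G hG i hi (by rw [← hki, ← hval]; exact v1.2.2))
    · have hk'B : k' ∈ b.u B := by
        by_contra hcon
        exact (nkl k' (hnew k' hk' hcon hki)).2 kk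
      by_cases hii : i' = i
      · subst hii
        exact hval0 ki G hG k' hk'B kk hval
      · have hi'B : i' ∈ b.u B := by
          by_contra hcon
          exact (nkl i' (hnew i' hi' hcon hii)).1 ki
        have v1 := vf _ _ hle G hG i' hi'B
        have v2 := vf _ _ hle G hG k' hk'B
        exact hO.2 i' hi'B k' hk'B ki kk _ (gf _ _ hle G hG)
          (by rw [v1.2.1, v2.1]; exact hval)
  · -- images
    intro π B ρ' hO hi
    have hsl : Sl (b.l + 1) b.S := fun e he => by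
      have := hb.sl e he
      exact ⟨this.1, by omega⟩
    have hi' : Isl D b.l b.S π (b.u B) ρ' :=
      (qi1 D hD (b.l + 1) b.S π _ _ hsl hi).2.2.2.1 b.l b.S (by omega) fun _ h => h
    refine img π B ρ' hO hi' ?_
    intro k hk kk
    exact (hi.k k hk (b.l + 1) (by have := hb.l3; omega) le_rfl).2 kk
  · -- copies
    intro π C B ρ' hO hle hi hid hkc
    refine img π B ρ' hO hi ?_
    intro k hk kk
    by_cases hkC : k ∈ b.u C
    · rwa [hid k hkC] at kk
    · exfalso
      rw [hkc k hk hkC] at kk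
      unfold kct at kk
      by_cases h : ∃ n : ℕ, 3 ≤ n ∧ n ≤ b.l ∧ kd k = nS n
      · rw [sel_pos h] at kk
        obtain ⟨n, -, hn, hk'⟩ := h
        have := nS_inj.1 (hk'.symm.trans kk)
        omega
      · rw [sel_neg h] at kk
        have := nS_inj.1 kk
        omega

end SE.UZ
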