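import Pool.Agent.H45.UZ.TarP

/-!
# MP_f6fd33_lc, rows LI, LP: common part 1 (basic facts)
-/

set_option linter.unusedVariables false

open Ordinal Order Set
open scoped ZFSet

namespace SE.UZ

open SF

namespace LC

/-- the library facts which are used -/
structure Lib : Prop where
  we : T_PWE
  sj : T_PSJ
  oa : T_POA
  ob : T_POB
  ha : T_PHA
  lw : T_PLW
  w2 : T_PW2
  de : T_PDE
  db : T_PDB
  cpf : T_CPF
  qc2 : T_QC2
  qi1 : T_QI1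
  qi3 : T_QI3
  qrm : T_QRM
  qrn : T_QRN
  bo : T_BO
  bk : T_BK
  bl : T_BL
  bj : T_BJ
  br : T_BR
  ba : T_BA

/-! ### Two element families -/

/-- the function on `{0, 1}` with values `a`, `c` -/
noncomputable def two (a c : V) : V := {ZFSet.pair (nS 0) a, ZFSet.pair (nS 1) c}

theorem ne01 : nS 0 ≠ nS 1 := fun h => absurd (nS_inj.1 h) (by norm_num)

theorem mem_I2 {v : V} : v ∈ ({nS 0, nS 1} : V) ↔ v = nS 0 ∨ v = nS 1 := by
  rw [ZFSet.mem_insert_iff, ZFSet.mem_singleton]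

theorem pair_mem_two {a c x y : V} :
    ZFSet.pair x y ∈ two a c ↔ (x = nS 0 ∧ y = a) ∨ (x = nS 1 ∧ y = c) := by
  unfold two
  rw [ZFSet.mem_insert_iff, ZFSet.mem_singleton, ZFSet.pair_inj, ZFSet.pair_inj]

theorem svl_two (a c : V) : Svl (two a c) := by
  intro x y z hy hz
  rw [pair_mem_two] at hy hz
  rcases hy with ⟨h1, h2⟩ | ⟨h1, h2⟩ <;> rcases hz with ⟨h3, h4⟩ | ⟨h3, h4⟩
  · rw [h2, h4]
  · exact absurd (h1.symm.trans h3) ne01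
  · exact absurd (h3.symm.trans h1) ne01
  · rw [h2, h4]

theorem app_two0 (a c : V) : app (two a c) (nS 0) = a :=
  app_eq (svl_two a c) (pair_mem_two.2 (Or.inl ⟨rfl, rfl⟩))

theorem app_two1 (a c : V) : app (two a c) (nS 1) = c :=
  app_eq (svl_two a c) (pair_mem_two.2 (Or.inr ⟨rfl, rfl⟩))

theorem resS_I2 (f : V → V) : resS {nS 0, nS 1} f = two (f (nS 0)) (f (nS 1)) := by
  apply ZFSet.ext
  intro z
  rw [mem_resS]
  unfold two
  rw [ZFSet.mem_insert_iff, ZFSet.mem_singleton]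
  constructor
  · rintro ⟨x, hx, rfl⟩
    rcases mem_I2.1 hx with rfl | rfl
    · exact Or.inl rfl
    · exact Or.inr rfl
  · rintro (h | h)
    · exact ⟨_, mem_I2.2 (Or.inl rfl), h.symm⟩
    · exact ⟨_, mem_I2.2 (Or.inr rfl), h.symm⟩

theorem two_mem {M : V → Prop} (k : ZFm M) {a c : V} (h1 : M a) (h2 : M c) : M (two a c) := by
  have h := (Tm.upair (Tm.pair (Tm.nS 0) (Tm.var 0)) (Tm.pair (Tm.nS 1) (Tm.var 1))).1 M k
    (cons a (cons c fun _ => ∅)) (In.cons (In.cons (fun _ => k.mempty) h2) h1)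
  exact h

theorem I2_mem {M : V → Prop} (k : ZFm M) : M ({nS 0, nS 1} : V) := by
  have h := (Tm.upair (Tm.nS 0) (Tm.nS 1)).1 M k (fun _ => ∅) (fun _ => k.mempty)
  exact h

/-! ### One element families -/

/-- the function on `{0}` with value `a` -/
noncomputable def one (a : V) : V := {ZFSet.pair (nS 0) a}

theorem app_one (a : V) : app (one a) (nS 0) = a := by
  refine app_eq ?_ (ZFSet.mem_singleton.2 rfl)
  intro x y z hy hz
  have h1 := ZFSet.pair_inj.1 (ZFSet.mem_singleton.1 hy)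
  have h2 := ZFSet.pair_inj.1 (ZFSet.mem_singleton.1 hz)
  rw [h1.2, h2.2]

theorem one_mem {M : V → Prop} (k : ZFm M) {a : V} (h1 : M a) : M (one a) := by
  have h := (Tm.sing (Tm.pair (Tm.nS 0) (Tm.var 0))).1 M k
    (cons a fun _ => ∅) (In.cons (fun _ => k.mempty) h1)
  exact h

theorem I1_mem {M : V → Prop} (k : ZFm M) : M ({nS 0} : V) := by
  have h := (Tm.sing (Tm.nS 0)).1 M k (fun _ => ∅) (fun _ => k.mempty)
  exact h

/-! ### Restrictions -/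

theorem gs_gs {G s t : V} (h : s ⊆ t) : gs (gs G t) s = gs G s := by
  apply ZFSet.ext
  intro p
  unfold gs
  rw [ZFSet.mem_sep, ZFSet.mem_sep, ZFSet.mem_sep]
  constructor
  · rintro ⟨⟨h1, h2⟩, h3⟩
    exact ⟨h1, h3⟩
  · rintro ⟨h1, h3⟩
    exact ⟨⟨h1, fun i hi => h (h3 hi)⟩, h3⟩

theorem RR_gs {D : Cx} {G s t x : V} (h : s ⊆ t) : RR D s (gs G t) x ↔ RR D s G x := by
  unfold RR
  rw [gs_gs h]

theorem Sn_gs {D : Cx} {G t X y j : V} (h : vw j ⊆ t) : Sn D (gs G t) X y j ↔ Sn D G X y j := by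
  unfold Sn
  rw [RR_gs h, RR_gs h]

section

variable {D : Cx} {κ : V} {b : BS}

theorem kN (hA : Amb D κ) : ZFm D.N := hA.ok.zfc.toZFCm.toZFm

theorem uH (hb : b.Ok D κ) {B : V} (h : B ∈ b.Ob) : b.u B ∈ D.H := (hb.cs B h).h

theorem uC (hb : b.Ok D κ) {B : V} (h : B ∈ b.Ob) : Cld D.L (b.u B) := (hb.cs B h).c

theorem uN (L : Lib) (hA : Amb D κ) (hb : b.Ok D κ) {B : V} (h : B ∈ b.Ob) : D.N (b.u B) :=
  (L.bj D hA.ok).2.2.1 _ (uH hb h)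

theorem uT (L : Lib) (hb : b.Ok D κ) {B : V} (h : B ∈ b.Ob) : Tr (b.u B) :=
  (L.ba.2.2.2.2.2.2 D.L _ (uC hb h)).1

/-- restriction of generic filters to faces -/
theorem gface (L : Lib) (hA : Amb D κ) (hb : b.Ok D κ) {A B : V} (h : b.Le A B) {G : V}
    (hG : D.Gn (b.u B) G) : D.Gn (b.u A) (gs G (b.u A)) := by
  obtain ⟨h1, h2, h3⟩ := hb.leO A B h
  exact ((L.bl D hA.ok _ G (uN L hA hb h2) (uC hb h2) hG).2 _ (uN L hA hb h1) h3
    (uT L hb h1)).1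

/-- a generic filter on the labels of `B` -/
theorem gself (L : Lib) (hA : Amb D κ) (hb : b.Ok D κ) {B : V} (h : B ∈ b.Ob) {G : V}
    (hG : D.Gn (b.u B) G) : gs G (b.u B) = G :=
  (L.bl D hA.ok _ G (uN L hA hb h) (uC hb h) hG).1

/-- values of histories of faces -/
theorem Ent_gs (L : Lib) (hA : Amb D κ) (hb : b.Ok D κ) {A B : V} (hle : b.Le A B) {h G : V}
    {σ : Ordinal.{0}} (hh : His D (b.u A) h σ) (hG : D.Gn (b.u B) G) (X y : V)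
    (e : Ordinal.{0}) : Ent h (gs G (b.u A)) X y e ↔ Ent h G X y e := by
  obtain ⟨h1, h2, h3⟩ := hb.leO A B hle
  exact (((L.ha D hA.ok _ _ h σ (uN L hA hb h1) (uC hb h1) (uN L hA hb h2) (uC hb h2) h3 hh).1
    G hG).1 X y e).1.symm

theorem Ent_pr (L : Lib) (hA : Amb D κ) (hb : b.Ok D κ) {A B : V} (hle : b.Le A B) {h G : V}
    {σ : Ordinal.{0}} (hh : His D (b.u A) h σ) (hG : D.Gn (b.u B) G) {X y : V}
    {e : Ordinal.{0}} (he : Ent h G X y e) :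
    RR D (b.u A) G X ∧ RR D (b.u A) G y ∧ e < σ ∧ D.N e.toZFSet := by
  obtain ⟨h1, h2, h3⟩ := hb.leO A B hle
  exact (((L.ha D hA.ok _ _ h σ (uN L hA hb h1) (uC hb h1) (uN L hA hb h2) (uC hb h2) h3 hh).1
    G hG).1 X y e).2 he

/-- reals of a face -/
theorem RR_mono (L : Lib) (hA : Amb D κ) (hb : b.Ok D κ) {A B : V} (hle : b.Le A B) {G : V}
    (hG : D.Gn (b.u B) G) {x : V} (hx : RR D (b.u A) G x) : RR D (b.u B) G x := by
  obtain ⟨h1, h2, h3⟩ := hb.leO A B hle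
  exact (L.qrn D hA.ok _ G _ (uN L hA hb h2) (uC hb h2) hG (uN L hA hb h1) h3
    (uT L hb h1)).2.2.1 x hx

/-- names of the reals of a face -/
theorem RR_nam (L : Lib) (hA : Amb D κ) (hb : b.Ok D κ) {A B : V} (hle : b.Le A B) {G : V}
    (hG : D.Gn (b.u B) G) {x : V} :
    RR D (b.u A) G x ↔ ∃ Y, D.N Y ∧ Nam D.L (b.u A) Y ∧ ev G Y = x := by
  obtain ⟨h1, h2, h3⟩ := hb.leO A B hle
  exact (L.qrn D hA.ok _ G _ (uN L hA hb h2) (uC hb h2) hG (uN L hA hb h1) h3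
    (uT L hb h1)).1 x

theorem ev_gs (L : Lib) (hA : Amb D κ) (hb : b.Ok D κ) {A B : V} (hle : b.Le A B) {G : V}
    (hG : D.Gn (b.u B) G) {Y s : V} (hY : D.N Y) (nY : Nam D.L (b.u A) Y) (hs : b.u A ⊆ s) :
    ev (gs G s) Y = ev G Y := by
  obtain ⟨h1, h2, h3⟩ := hb.leO A B hle
  exact ((L.bk D hA.ok _ G (uN L hA hb h2) (uC hb h2) hG).1 _ Y (uN L hA hb h1) h3
    (uT L hb h1) hY nY).2.2.2.2.2 s hs

/-- names over a face as names over the object -/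
theorem nam_up (L : Lib) (hA : Amb D κ) (hb : b.Ok D κ) {A B : V} (hle : b.Le A B) {Y : V}
    (hY : D.N Y) (nY : Nam D.L (b.u A) Y) :
    ∃ Y', D.N Y' ∧ Nam D.L (b.u B) Y' ∧ ∀ G, D.Gn (b.u B) G → ev G Y' = ev G Y := by
  obtain ⟨h1, h2, h3⟩ := hb.leO A B hle
  exact (L.bo D hA.ok _ (uN L hA hb h2) (uC hb h2)).2.2.2.2.2 _ Y (uN L hA hb h1) h3
    (uT L hb h1) hY nY

/-! ### Secured facts and faces -/

theorem Se_nam (L : Lib) (hA : Amb D κ) (hb : b.Ok D κ) {A B : V} (hle : b.Le A B) {G a x : V}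
    (hG : D.Gn (b.u B) G) (h : b.Se A G a x) : RR D (b.u A) G a ∧ RR D (b.u A) G x := by
  obtain ⟨p, hp, a', x', h1, rfl, rfl⟩ := h
  obtain ⟨-, -, ⟨n1, n2⟩, n3, n4⟩ := hb.sc _ _ _ _ h1
  exact ⟨(RR_nam L hA hb hle hG).2 ⟨a', n1, n2, rfl⟩, (RR_nam L hA hb hle hG).2 ⟨x', n3, n4, rfl⟩⟩

theorem dmP {ρ p : V} (h : p ∈ D.P ρ) : dm p ⊆ ρ := by
  intro i hi
  obtain ⟨h1, -⟩ := ZFSet.mem_sep.1 h
  obtain ⟨y, hy⟩ := mem_dm.1 hi
  have h2 : p ⊆ ZFSet.prod ρ (Qs D.L) := by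
    have h3 := (ZFSet.mem_sep.1 h1).1
    exact ZFSet.mem_powerset.1 h3
  exact (ZFSet.pair_mem_prod.1 (h2 hy)).1

theorem Se_gs (L : Lib) (hA : Amb D κ) (hb : b.Ok D κ) {A B : V} (hle : b.Le A B) {G a x : V}
    (hG : D.Gn (b.u B) G) : b.Se A (gs G (b.u A)) a x ↔ b.Se A G a x := by
  obtain ⟨o1, o2, o3⟩ := hb.leO A B hle
  constructor
  · rintro ⟨p, hp, a', x', h1, h2, h3⟩
    obtain ⟨-, -, ⟨n1, n2⟩, n3, n4⟩ := hb.sc _ _ _ _ h1
    refine ⟨p, (ZFSet.mem_sep.1 hp).1, a', x', h1, ?_, ?_⟩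
    · rw [← h2, ev_gs L hA hb hle hG n1 n2 (fun _ h => h)]
    · rw [← h3, ev_gs L hA hb hle hG n3 n4 (fun _ h => h)]
  · rintro ⟨p, hp, a', x', h1, h2, h3⟩
    obtain ⟨-, hpP, ⟨n1, n2⟩, n3, n4⟩ := hb.sc _ _ _ _ h1
    refine ⟨p, ZFSet.mem_sep.2 ⟨hp, dmP hpP⟩, a', x', h1, ?_, ?_⟩
    · rw [← h2, ev_gs L hA hb hle hG n1 n2 (fun _ h => h)]
    · rw [← h3, ev_gs L hA hb hle hG n3 n4 (fun _ h => h)]

/-- killed pairs stay killed -/
theorem Kil_up (L : Lib) (hA : Amb D κ) (hb : b.Ok D κ) {A B : V} (hle : b.Le A B) {G X y : V}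
    (hG : D.Gn (b.u B) G) (h : b.Kil D A (gs G (b.u A)) X y) : b.Kil D B G X y := by
  obtain ⟨a, x, ra, rx, hX, v, hv, hs⟩ := h
  have hs' := (Se_gs L hA hb hle hG).1 hs
  obtain ⟨r1, r2⟩ := Se_nam L hA hb hle hG hs'
  refine ⟨a, x, ra, rx, hX, v, ?_, (hb.ab A B hle G hG _ _ r1 r2).1 hs'⟩
  exact RR_mono L hA hb hle hG ((RR_gs (fun _ h => h)).1 hv)

end

end LC

end SE.UZ
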