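import Pool.Agent.H21.UZ.LC2

/-!
# MP_f6fd33_lc, rows LI, LP: common part 3 (transfer of killability and of type N)
-/

set_option linter.unusedVariables false

open Ordinal Order Set
open scoped ZFSet

namespace SE.UZ

open SF

namespace LC

variable {D : Cx} {κ : V} {b : BS} {σ r : Ordinal.{0}}

theorem sl (hb : b.Ok D κ) : Sl b.l b.S := fun e he => by
  have := hb.sl e he
  exact ⟨this.1, by omega⟩

/-- a condition of a generic filter on the labels of the copy can be forced -/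
theorem forceP (L : Lib) (hc : Ctx D κ b σ) {B B2 B3 C : V} (o3 : B3 ∈ b.Ob) (le3 : b.Le B B3)
    (le3' : b.Le B2 B3) (hC : b.Le C B2) (hint : b.u B ∩ b.u B2 = b.u C) {G G2 : V}
    (hG : D.Gn (b.u B) G) (hG2 : D.Gn (b.u B2) G2) (hr : gs G2 (b.u C) = gs G (b.u C))
    {p : V} (hp : p ∈ G2) (hpP : p ∈ D.P (b.u B2)) :
    ∃ G3, D.Gn (b.u B3) G3 ∧ gs G3 (b.u B) = G ∧ p ∈ gs G3 (b.u B2) ∧ p ∈ G3 := by
  have hb := hc.ok
  have o1 := hb.leO _ _ le3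
  have o2 := hb.leO _ _ le3'
  have oC := hb.leO _ _ hC
  have h1 : rst (b.u C) p ∈ gs G2 (b.u C) :=
    ((L.bl D hc.am.ok _ G2 (uN L hc.am hb o2.1) (uC hb o2.1) hG2).2 _ (uN L hc.am hb oC.1)
      oC.2.2 (uT L hb oC.1)).2.2.2.2.1 p hp
  rw [hr] at h1
  obtain ⟨G3, g1, g2, g3⟩ := L.qc2 D hc.am.ok (b.u C) (b.u B) (b.u B2) (b.u B3) G p
    (uN L hc.am hb o1.1) (uN L hc.am hb o2.1) (uN L hc.am hb o3) (uC hb o3) o1.2.2 o2.2.2
    (uT L hb o1.1) (uT L hb o2.1) (by rw [hint]) hG hpP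
    (ZFSet.mem_sep.1 h1).1
  exact ⟨G3, g1, g2, ZFSet.mem_sep.2 ⟨g3, dmP hpP⟩, g3⟩

/-- a decided property of a generic filter on the labels of the copy can be forced -/
theorem force (L : Lib) (hc : Ctx D κ b σ) {B B2 B3 C : V} (o3 : B3 ∈ b.Ob) (le3 : b.Le B B3)
    (le3' : b.Le B2 B3) (hC : b.Le C B2) (hint : b.u B ∩ b.u B2 = b.u C) {G G2 : V}
    (hG : D.Gn (b.u B) G) (hG2 : D.Gn (b.u B2) G2) (hr : gs G2 (b.u C) = gs G (b.u C))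
    {Q : V → Prop} (hQ : Dcd D (b.u B2) Q) (hq : Q G2) :
    ∃ G3, D.Gn (b.u B3) G3 ∧ gs G3 (b.u B) = G ∧ Q (gs G3 (b.u B2)) := by
  have hb := hc.ok
  have o1 := hb.leO _ _ le3
  have o2 := hb.leO _ _ le3'
  have oC := hb.leO _ _ hC
  obtain ⟨p, hp, hpP, hpq⟩ := (L.db D hc.am.ok _ (uN L hc.am hb o2.1) (uC hb o2.1) Q
    hQ).2.2.2.1 G2 hG2 hq
  have h1 : rst (b.u C) p ∈ gs G2 (b.u C) :=
    ((L.bl D hc.am.ok _ G2 (uN L hc.am hb o2.1) (uC hb o2.1) hG2).2 _ (uN L hc.am hb oC.1)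
      oC.2.2 (uT L hb oC.1)).2.2.2.2.1 p hp
  rw [hr] at h1
  obtain ⟨G3, g1, g2, g3⟩ := L.qc2 D hc.am.ok (b.u C) (b.u B) (b.u B2) (b.u B3) G p
    (uN L hc.am hb o1.1) (uN L hc.am hb o2.1) (uN L hc.am hb o3) (uC hb o3) o1.2.2 o2.2.2
    (uT L hb o1.1) (uT L hb o2.1) (by rw [hint]) hG hpP
    (ZFSet.mem_sep.1 h1).1
  refine ⟨G3, g1, g2, hpq _ (gface L hc.am hb le3' g1) ?_⟩
  exact ZFSet.mem_sep.2 ⟨g3, dmP hpP⟩

/-- the image of the filter -/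
theorem g2 (L : Lib) (hc : Ctx D κ b σ) {π B1 B2 C : V} (hi : Isl D b.l b.S π (b.u B1) (b.u B2))
    (o1 : b.Le C B1) (idn : Idn π (b.u C)) {G1 : V} (hG1 : D.Gn (b.u B1) G1) :
    D.Gn (b.u B2) (gi D π (b.u B2) G1) ∧
      gs (gi D π (b.u B2) G1) (b.u C) = gs G1 (b.u C) ∧
      (∀ x, RR D (b.u B2) (gi D π (b.u B2) G1) x ↔ RR D (b.u B1) G1 x) ∧
      (∀ x, RR D (b.u C) (gi D π (b.u B2) G1) x ↔ RR D (b.u C) G1 x) ∧
      ∀ Y, D.N Y → Nam D.L (b.u C) Y → ev (gi D π (b.u B2) G1) Y = ev G1 Y := by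
  have hb := hc.ok
  have oC := hb.leO _ _ o1
  obtain ⟨q1, q2, q3, q4, q5, q6⟩ := L.qi3 D hc.am.ok b.l b.S π _ _ (sl hb) hi G1 hG1 _ rfl
  have h1 := (q6 (b.u C) (uN L hc.am hb oC.1) oC.2.2 (uT L hb oC.1)).2.2.2.2 idn
  have h2 := (q6 (b.u B1) (uN L hc.am hb oC.2.1) (fun _ h => h) (uT L hb oC.2.1)).2.2.1
  have h3 : im π (b.u B1) = b.u B2 :=
    (L.qi1 D hc.am.ok b.l b.S π _ _ (sl hb) hi).1.2.2.1
  rw [h3] at h2
  exact ⟨q1, h1.1, h2, h1.2.1, h1.2.2⟩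

/-- killed pairs and isomorphisms -/
theorem Kil_iso (L : Lib) (hc : Ctx D κ b σ) {π B1 : V} (o1 : B1 ∈ b.Ob)
    (hi : Isl D b.l b.S π (b.u B1) (b.u (b.T π B1))) {G1 : V} (hG1 : D.Gn (b.u B1) G1) {X y : V}
    (h : b.Kil D B1 G1 X y) : b.Kil D (b.T π B1) (gi D π (b.u (b.T π B1)) G1) X y := by
  have hb := hc.ok
  obtain ⟨a, x, ra, rx, hX, v, hv, hs⟩ := h
  refine ⟨a, x, ra, rx, hX, v, ?_, (hb.trS B1 o1 π _ hi G1 hG1 _ _).1 hs⟩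
  obtain ⟨q1, q2, q3, q4, q5, q6⟩ := L.qi3 D hc.am.ok b.l b.S π _ _ (sl hb) hi G1 hG1 _ rfl
  have h2 := (q6 (b.u B1) (uN L hc.am hb o1) (fun _ h => h) (uT L hb o1)).2.2.1
  have h3 : im π (b.u B1) = b.u (b.T π B1) :=
    (L.qi1 D hc.am.ok b.l b.S π _ _ (sl hb) hi).1.2.2.1
  rw [h3] at h2
  exact (h2 v).2 hv

/-- names of the reals of the common face, over the copy; all values are correct -/
theorem nmC (L : Lib) (hc : Ctx D κ b σ) {B B2 B3 C : V} (le3 : b.Le B B3)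
    (le3' : b.Le B2 B3) (hC : b.Le C B2) (hCB : b.Le C B) {G G2 : V} (hG : D.Gn (b.u B) G)
    (hG2 : D.Gn (b.u B2) G2) (hr : gs G2 (b.u C) = gs G (b.u C)) {x : V}
    (hx : RR D (b.u C) G x) :
    ∃ X, D.N X ∧ Nam D.L (b.u B2) X ∧ ev G2 X = x ∧
      ∀ G3, D.Gn (b.u B3) G3 → gs G3 (b.u B) = G → ev (gs G3 (b.u B2)) X = x := by
  have hb := hc.ok
  obtain ⟨Y, n1, n2, rfl⟩ := (RR_nam L hc.am hb hCB hG).1 hx
  obtain ⟨X, m1, m2, m3⟩ := nam_up L hc.am hb hC n1 n2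
  have sB := (hb.leO _ _ hCB).2.2
  have sB2 := (hb.leO _ _ hC).2.2
  refine ⟨X, m1, m2, ?_, ?_⟩
  · rw [m3 G2 hG2, ← ev_gs L hc.am hb hC hG2 n1 n2 (fun _ h => h), hr,
      ev_gs L hc.am hb hCB hG n1 n2 (fun _ h => h)]
  · intro G3 hG3 h3
    have hC3 : b.Le C B3 := hb.trn _ _ _ hC le3'
    rw [m3 _ (gface L hc.am hb le3' hG3), ev_gs L hc.am hb hC3 hG3 n1 n2 sB2,
      ← ev_gs L hc.am hb hC3 hG3 n1 n2 sB, h3]

/-- the transfer -/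
theorem transfer (L : Lib) (hc : Ctx D κ b σ) (hr : r ≤ σ) (hV : b.PV D r) (hA : b.PA D σ)
    {C h0 B h : V} (w0 : b.Wd D r C h0) (w : b.Wd D σ B h) (le : b.LW D r C h0 B h)
    (fr : b.Frs D r C B h) {ζ : V}
    (hζ : (ζ = D.H ∧ r = σ) ∨
      (ζ ∈ D.H ∧ b.Ls D (b.Wd D) r ∧ ζ = (b.cn D (b.Wd D) r).toZFSet))
    {G : V} (hG : D.Gn (b.u B) G) {X : V} (hX : RR D (b.u C) G X) :
    (∀ y, RR D (b.u C) G y → b.Kb D (b.Wd D) r C h0 (gs G (b.u C)) X y →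
      b.Kb D (b.Wd D) σ B h G X y) ∧
    (b.Nn D (b.Wd D) r C h0 (gs G (b.u C)) X → b.Nn D (b.Wd D) σ B h G X) := by
  have hb := hc.ok
  have am := hc.am
  have cr := ctx_le hc hr
  have sCB : b.u C ⊆ b.u B := (hb.leO _ _ le.le).2.2
  constructor
  · rintro y hy ⟨B1, h1, G1, ew, kil⟩
    obtain ⟨π, B2, h2, B3, h3, si, idn, eB, eh, w2, l2, hint, w3, l3, l3'⟩ :=
      amalg L hc hr hV hA w0 w le fr hζ ew.w ew.le
    have o3 : B3 ∈ b.Ob := (iw L w3).wo.o.o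
    have o1 : B1 ∈ b.Ob := (iw L ew.w).wo.o.o
    have hi := si.i
    obtain ⟨g21, g22, g23, g24, g25⟩ := g2 L hc hi ew.le.le idn ew.g
    set G2 := gi D π (b.u B2) G1 with hG2
    have hrr : gs G2 (b.u C) = gs G (b.u C) := by rw [g22, ew.r]
    have kil2 : b.Kil D B2 G2 X y := by
      rw [eB] at hi
      have := Kil_iso L hc o1 hi ew.g kil
      rw [← eB] at this
      exact this
    obtain ⟨X', x1, x2, x3, x4⟩ := nmC L hc l3.le l3'.le l2.le le.le hG g21 hrr hX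
    obtain ⟨Y', y1, y2, y3, y4⟩ := nmC L hc l3.le l3'.le l2.le le.le hG g21 hrr hy
    have o2 : B2 ∈ b.Ob := (iw L w2).wo.o.o
    have hd := (L.de D κ am b hb r cr.s B2 o2 h2 r (iw L w2).wo.hs X' Y' x1 y1 x2 y2).2.2.2.2.1
    obtain ⟨G3, q1, q2, q3⟩ := force L hc o3 l3.le l3'.le l2.le hint hG g21 hrr hd
      (by rw [x3, y3]; exact kil2)
    have q3' : b.Kil D B2 (gs G3 (b.u B2)) X y := by
      have := q3
      rw [x4 G3 q1 q2, y4 G3 q1 q2] at this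
      exact this
    exact ⟨B3, h3, G3, ⟨w3, l3, q1, q2⟩, Kil_up L am hb l3'.le q1 q3'⟩
  · rintro ⟨B1, h1, G1, y, ew, hy1, hy2, hk⟩
    obtain ⟨π, B2, h2, B3, h3, si, idn, eB, eh, w2, l2, hint, w3, l3, l3'⟩ :=
      amalg L hc hr hV hA w0 w le fr hζ ew.w ew.le
    have o3 : B3 ∈ b.Ob := (iw L w3).wo.o.o
    have o1 : B1 ∈ b.Ob := (iw L ew.w).wo.o.o
    have hi := si.i
    obtain ⟨g21, g22, g23, g24, g25⟩ := g2 L hc hi ew.le.le idn ew.g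
    set G2 := gi D π (b.u B2) G1 with hG2
    have hrr : gs G2 (b.u C) = gs G (b.u C) := by rw [g22, ew.r]
    have hk2 : ¬ b.Kb D (b.Wd D) r B2 h2 G2 X y := by
      have w2' := w2
      rw [eB, eh] at w2'
      have := (hV.t π B1 (b.u B2) h1 ew.w si w2' G1 ew.g X).1 y
      rw [← eB, ← eh] at this
      exact fun h => hk (this.2 h)
    obtain ⟨X', x1, x2, x3, x4⟩ := nmC L hc l3.le l3'.le l2.le le.le hG g21 hrr hX
    have o2 : B2 ∈ b.Ob := (iw L w2).wo.o.o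
    have hy1' : RR D (b.u B2) G2 y := (g23 y).2 hy1
    obtain ⟨Y', y1, y2, y3⟩ := (RR_nam L am hb (hb.rfl _ o2) g21).1 hy1'
    have hde := L.de D κ am b hb r cr.s B2 o2 h2 r (iw L w2).wo.hs
    have oC : C ∈ b.Ob := (hb.leO _ _ le.le).1
    have d1 := (hde X' Y' x1 y1 x2 y2).2.2.2.2.2.1
    have d2 := (hde Y' Y' y1 y1 y2 y2).2.2.2.2.2.2.2.2.2.2.1 (b.u C) (uN L am hb oC)
      (hb.leO _ _ l2.le).2.2 (uT L hb oC)
    have hdb := L.db D am.ok _ (uN L am hb o2) (uC hb o2)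
    have d3 := (hdb _ (hdb _ d1).1).2.1 _ (hdb _ d2).1
    have hy2' : ¬ RR D (b.u C) G2 (ev G2 Y') := by
      rw [y3, g24]
      exact hy2
    obtain ⟨G3, q1, q2, q3, q4⟩ := force L hc o3 l3.le l3'.le l2.le hint hG g21 hrr d3
      ⟨by rw [x3, y3]; exact hk2, hy2'⟩
    rw [x4 G3 q1 q2] at q3
    have e1 : ev (gs G3 (b.u B2)) Y' = ev G3 Y' := ev_gs L am hb l3'.le q1 y1 y2 (fun _ h => h)
    rw [e1] at q3 q4
    have r1 : RR D (b.u B2) G3 (ev G3 Y') := (RR_nam L am hb l3'.le q1).2 ⟨Y', y1, y2, rfl⟩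
    refine ⟨B3, h3, G3, ev G3 Y', ⟨w3, l3, q1, q2⟩, RR_mono L am hb l3'.le q1 r1, ?_, ?_⟩
    · intro hcon
      have o4 := hb.leO _ _ l3.le
      have o5 := hb.leO _ _ l3'.le
      have := L.qrm D am.ok _ G3 _ _ (uN L am hb o3) (uC hb o3) q1 (uN L am hb o4.1)
        (uN L am hb o2) o4.2.2 o5.2.2 (uT L hb o4.1) (uT L hb o2) _ hcon r1
      rw [hint] at this
      exact q4 ((RR_gs (hb.leO _ _ l2.le).2.2).2 this)
    · intro hcon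
      exact q3 ((L.w2 D κ am b hb).2 σ r B2 h2 B3 h3 G3 X _ hr w2 w3 l3' q1 hcon)

end LC

end SE.UZ
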