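import Pool.Agent.H21.UZ.LC3

/-!
# MP_f6fd33_lc, rows LI (invariance) and LP (persistence)
-/

set_option linter.unusedVariables false

open Ordinal Order Set
open scoped ZFSet

namespace SE.UZ

open SF LC

theorem LC.li (L : Lib) : T_LI := by
  intro D κ b σ hc hV hA C h0 B h w0 w le G hG X hX
  have hb := hc.ok
  have am := hc.am
  have fr : b.Frs D σ C B h := by
    intro G hG X y e hE hre
    have := (Ent_pr L am hb (hb.rfl _ (iw L w).wo.o.o) (iw L w).wo.hs hG hE).2.2.1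
    exact absurd this (not_lt.2 hre)
  obtain ⟨t1, t2⟩ := transfer L hc le_rfl (hV σ le_rfl) hA w0 w le fr (ζ := D.H)
    (Or.inl ⟨rfl, rfl⟩) hG hX
  have sCB : b.u C ⊆ b.u B := (hb.leO _ _ le.le).2.2
  have kb : ∀ y, RR D (b.u C) G y → (b.Kb D (b.Wd D) σ C h0 (gs G (b.u C)) X y ↔
      b.Kb D (b.Wd D) σ B h G X y) := fun y hy =>
    ⟨t1 y hy, (L.w2 D κ am b hb).2 σ σ C h0 B h G X y le_rfl w0 w le hG⟩
  have nn : b.Nn D (b.Wd D) σ C h0 (gs G (b.u C)) X ↔ b.Nn D (b.Wd D) σ B h G X := by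
    refine ⟨t2, ?_⟩
    rintro ⟨B', h', G', y, ew, a1, a2, a3⟩
    have oC : C ∈ b.Ob := (hb.leO _ _ le.le).1
    refine ⟨B', h', G', y, ⟨ew.w, ?_, ew.g, ?_⟩, a1, ?_, a3⟩
    · exact (L.lw D κ am b hb).2.1 σ C h0 B h B' h' σ σ oC (iw L w0).wo.hs (iw L w).wo.hs le
        ew.le
    · rw [← gs_gs sCB, ew.r]
    · intro h5
      apply a2
      have oB : B ∈ b.Ob := (iw L w).wo.o.o
      have oB' : B' ∈ b.Ob := (iw L ew.w).wo.o.o
      have o6 := hb.leO _ _ ew.le.le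
      exact (L.qrn D am.ok _ G' _ (uN L am hb oB') (uC hb oB') ew.g (uN L am hb oC)
        (fun i hi => o6.2.2 (sCB hi)) (uT L hb oC)).2.2.2.2.2.2.2.1 _ (uN L am hb oB) sCB o6.2.2
        (uT L hb oB) y h5
  refine ⟨kb, nn, ?_⟩
  constructor
  · rintro ⟨h1, y, hy, hk⟩
    have hy' : RR D (b.u C) G y := (RR_gs (fun _ h => h)).1 hy
    exact ⟨fun h => h1 (nn.2 h), y, RR_mono L am hb le.le hG hy', fun h => hk ((kb y hy').2 h)⟩
  · rintro ⟨h1, y, hy, hk⟩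
    refine ⟨fun h => h1 (nn.1 h), ?_⟩
    by_cases hyC : RR D (b.u C) G y
    · exact ⟨y, (RR_gs (fun _ h => h)).2 hyC, fun h => hk ((kb y hyC).1 h)⟩
    · exfalso
      apply h1
      apply nn.1
      exact ⟨B, h, G, y, ⟨w, le, hG, rfl⟩, hy, hyC, hk⟩

theorem LC.lp (L : Lib) : T_LP := by
  intro D κ b σ hc hV hA r hr hLs hcn C h0 B h w0 w le fr G hG X hX
  exact transfer L hc hr (hV r hr) hA w0 w le fr (ζ := (b.cn D (b.Wd D) r).toZFSet)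
    (Or.inr ⟨hcn, hLs, rfl⟩) hG hX

theorem pf_LI (we : T_PWE) (sj : T_PSJ) (oa : T_POA) (ob : T_POB) (ha : T_PHA) (lw : T_PLW)
    (w2 : T_PW2) (de : T_PDE) (db : T_PDB) (cpf : T_CPF) (qc2 : T_QC2) (qi1 : T_QI1)
    (qi3 : T_QI3) (qrm : T_QRM) (qrn : T_QRN) (bo : T_BO) (bk : T_BK) (bl : T_BL) (bj : T_BJ)
    (br : T_BR) (ba : T_BA) : T_LI :=
  LC.li ⟨we, sj, oa, ob, ha, lw, w2, de, db, cpf, qc2, qi1, qi3, qrm, qrn, bo, bk, bl, bj, br, ba⟩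

theorem pf_LP (we : T_PWE) (sj : T_PSJ) (oa : T_POA) (ob : T_POB) (ha : T_PHA) (lw : T_PLW)
    (w2 : T_PW2) (de : T_PDE) (db : T_PDB) (cpf : T_CPF) (qc2 : T_QC2) (qi1 : T_QI1)
    (qi3 : T_QI3) (qrm : T_QRM) (qrn : T_QRN) (bo : T_BO) (bk : T_BK) (bl : T_BL) (bj : T_BJ)
    (br : T_BR) (ba : T_BA) : T_LP :=
  LC.lp ⟨we, sj, oa, ob, ha, lw, w2, de, db, cpf, qc2, qi1, qi3, qrm, qrn, bo, bk, bl, bj, br, ba⟩

end SE.UZ
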