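import Pool.Agent.H1.UZ.TarPC

/-!
# MP_f6fd33_lc, row PCS: absoluteness of level 2
-/

set_option linter.unusedVariables false

open Ordinal Order Set
open scoped ZFSet

namespace SE.UZ

open SF PSR

theorem pf_PCS (hS : T_SHO) : T_PCS := by
  intro W W' hW hW' hsub hord a x ha ra hx rx
  have key : ∀ U : V → Prop, (SgH U 2 a x ↔
      ∃ y, U y ∧ Rl y ∧ ∀ v, U v → Rl v → Opn a (prl (prl x y) v)) := by
    intro U
    constructor
    · rintro ⟨y, hy, ry, h⟩
      refine ⟨y, hy, ry, fun v hv rv => ?_⟩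
      by_contra hcon
      exact h ⟨v, hv, rv, hcon⟩
    · rintro ⟨y, hy, ry, h⟩
      refine ⟨y, hy, ry, ?_⟩
      rintro ⟨v, hv, rv, hcon⟩
      exact hcon (h v hv rv)
  rw [key W, key W']
  exact hS W W' hW hW' hsub hord a x ha ra hx rx

end SE.UZ
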