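import Pool.Agent.H1.UZ.TarPC

/-!
# MP_f6fd33_lc, row PTY: translation of codes of open sets
-/

set_option linter.unusedVariables false

open Ordinal Order Set
open scoped ZFSet

namespace SE.UZ

open SF PSR

theorem pf_PTY (AA : T_AA) (AF : T_AF) (AG : T_AG) (UC : T_UC) (TJ : T_PTJ) : T_PTY := by
  classical
  intro M hM θ hθ hT
  obtain ⟨-, aa2, -⟩ := AA
  obtain ⟨-, -, -, -, afS, -⟩ := AF
  obtain ⟨-, -, -, -, -, agF⟩ := AG
  obtain ⟨uc1, -, -, -, ucF⟩ := UC
  obtain ⟨jt, j0⟩ := TJ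
  obtain ⟨j1, j2, j3⟩ := j0 θ hT
  have jhf : ∀ k, JT θ k ∈ hf := by
    intro k
    obtain ⟨m, hm⟩ := j1 k
    exact (afS m _ hm).1
  have jne : ∀ k, JT θ k ≠ nS 1 := by
    intro k h
    obtain ⟨m, hm⟩ := j1 k
    have h1 : (∅ : V) ∈ JT θ k := by
      rw [h, ← nS_zero]
      exact nS_mem_nS.2 (by omega)
    obtain ⟨p, -, q, -, h5⟩ := ZFSet.mem_prod.1 (hm.1 h1)
    exact pair_ne_empty _ _ h5.symm
  refine ⟨fun a ha => ?_, fun c hc rc => ?_⟩
  · set F : V → V := fun z => sel (app (gr a) z = nS 0) (JT θ (nn z)) (nS 1) with hFd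
    have hF0 : ∀ n : ℕ, a n = 0 → F (nS n) = JT θ n := by
      intro n hn
      simp only [hFd]
      rw [sel_pos (by rw [uc1, hn]), nn_nS]
    have hF1 : ∀ n : ℕ, a n ≠ 0 → F (nS n) = nS 1 := by
      intro n hn
      simp only [hFd]
      rw [sel_neg]
      rw [uc1]
      exact fun h => hn (nS_inj.1 h)
    have hF : ∀ n : ℕ, F (nS n) ∈ hf := by
      intro n
      by_cases h : a n = 0
      · rw [hF0 n h]; exact jhf n
      · rw [hF1 n h]; exact aa2 1
    obtain ⟨hr, hv⟩ := agF F hF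
    refine ⟨resS om F, ?_, hr, fun x => ?_⟩
    · have h1 : Tm ZFm (fun _ v => resS om fun z =>
          sel (app (v 0) z = nS 0) (JT (v 1) (nn z)) (nS 1)) := by
        refine Tm.resS
          (g := fun _ u => sel (app (u 1) (u 0) = nS 0) (JT (u 2) (nn (u 0))) (nS 1)) Tm.om ?_
        exact Tm.sel (Dfb.eq (Tm.app (Tm.var 1) (Tm.var 0)) (Tm.nS 0))
          (Tm.at2 (F := fun _ p q => JT p (nn q)) jt (Tm.var 2) (Tm.var 0)) (Tm.nS 1)
      exact h1.1 M hM (cons (gr a) (cons θ fun _ => ∅))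
        (In.cons (In.cons (fun _ => hM.mempty) hθ) ha)
    · unfold Opn Op
      constructor
      · rintro ⟨n', hn', m', hm', h⟩
        obtain ⟨n, rfl⟩ := mem_om.1 hn'
        obtain ⟨m, rfl⟩ := mem_om.1 hm'
        rw [hv n, j3] at h
        by_cases h0 : a n = 0
        · rw [hF0 n h0] at h
          have := j2 _ _ h
          exact ⟨m, by rw [← this]; exact h0⟩
        · rw [hF1 n h0] at h
          exact absurd h.symm (jne _)
      · rintro ⟨m, h⟩
        refine ⟨_, nS_mem_om (Encodable.encode ((List.range m).map x)), _, nS_mem_om m, ?_⟩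
        rw [hv, j3, hF0 _ h]
  · refine ⟨fun k => if ∃ n ∈ om, app c n = JT θ k then 0 else 1, ?_, fun x => ?_⟩
    · refine ucF (fun _ w => sel (∃ n ∈ om, app (w 1) n = JT (w 2) (nn (w 0))) (nS 0) (nS 1)) ?_
        M hM (cons c (cons θ fun _ => ∅)) (In.cons (In.cons (fun _ => hM.mempty) hθ) hc) _ ?_
      · refine Tm.sel ?_ (Tm.nS 0) (Tm.nS 1)
        exact Dfb.bex ktr_zfm Tm.om (R := fun _ u => app (u 2) (u 0) = JT (u 3) (nn (u 1)))
          (Dfb.eq (Tm.app (Tm.var 2) (Tm.var 0))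
            (Tm.at2 (F := fun _ p q => JT p (nn q)) jt (Tm.var 3) (Tm.var 1)))
      · intro n
        show sel (∃ m ∈ om, app c m = JT θ (nn (nS n))) (nS 0) (nS 1) = _
        rw [nn_nS]
        by_cases h : ∃ m ∈ om, app c m = JT θ n
        · rw [sel_pos h]
          simp only [if_pos h]
        · rw [sel_neg h]
          simp only [if_neg h]
    · unfold Opn Op
      constructor
      · rintro ⟨n', hn', m', hm', h⟩
        obtain ⟨m, rfl⟩ := mem_om.1 hm'
        rw [j3] at h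
        exact ⟨m, if_pos ⟨n', hn', h⟩⟩
      · rintro ⟨m, h⟩
        have h' : ∃ n ∈ om, app c n = JT θ (Encodable.encode ((List.range m).map x)) := by
          by_contra hcon
          exact one_ne_zero ((if_neg hcon).symm.trans h)
        obtain ⟨n, hn, h2⟩ := h'
        exact ⟨n, hn, _, nS_mem_om m, by rw [j3]; exact h2⟩

end SE.UZ
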