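import Pool.Agent.H1.UZ.TarPC

/-!
# MP_f6fd33_lc, row PTZ: translation of codes, level `n`
-/

set_option linter.unusedVariables false

open Ordinal Order Set
open scoped ZFSet

namespace SE.UZ

open SF PSR

theorem pf_PTZ (UF : T_UF) (TX : T_PTX) (TY : T_PTY) : T_PTZ := by
  intro M hM e he hE n
  obtain ⟨x1, x2, x3, x4, x5⟩ := TX
  have hTe : Th e := x3 e hE
  obtain ⟨x51, x52⟩ := x5 M hM
  obtain ⟨-, uf⟩ := (UF e hE).2 M hM he
  induction n with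
  | zero =>
    intro θ hθ hT
    obtain ⟨h1, h2⟩ := TY M hM θ hθ hT
    refine ⟨fun a ha => ?_, fun c hc rc => ?_⟩
    · obtain ⟨c, hc, rc, h⟩ := h1 a ha
      exact ⟨c, hc, rc, fun x _ => h x⟩
    · obtain ⟨a, ha, h⟩ := h2 c hc rc
      exact ⟨a, ha, fun x _ => h x⟩
  | succ n ih =>
    intro θ hθ hT
    obtain ⟨hT', hp⟩ := x4 θ e hT hTe
    obtain ⟨i1, i2⟩ := ih (thp θ e) (x51 θ e hθ he) hT'
    have step : ∀ (c : V) (a : ℕ → ℕ),
        (∀ x : ℕ → ℕ, M (gr x) → (SgH M n c (hx (thp θ e) x) ↔ PUF.Sig M n a x)) →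
        ∀ x : ℕ → ℕ, M (gr x) → (SgH M (n + 1) c (hx θ x) ↔ PUF.Sig M (n + 1) a x) := by
      intro c a h x hx'
      constructor
      · rintro ⟨v, hv, rv, hn⟩
        obtain ⟨y, hy, rfl⟩ := uf v hv rv
        refine ⟨y, hy, fun hs => hn ?_⟩
        rw [← hp]
        exact (h _ (x52 x y hx' hy)).2 hs
      · rintro ⟨y, hy, hn⟩
        refine ⟨hx e y, x2 M hM e he y hy, (x1 e hTe y).1, fun hs => hn ?_⟩
        rw [← hp] at hs
        exact (h _ (x52 x y hx' hy)).1 hs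
    refine ⟨fun a ha => ?_, fun c hc rc => ?_⟩
    · obtain ⟨c, hc, rc, h⟩ := i1 a ha
      exact ⟨c, hc, rc, step c a h⟩
    · obtain ⟨a, ha, h⟩ := i2 c hc rc
      exact ⟨a, ha, step c a h⟩

end SE.UZ
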