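import Pool.Agent.H72.UZ.TarW

/-!
# MP_f6fd33_lc, row SM: disjoint unions of index sets
-/

set_option linter.unusedVariables false

open Ordinal Order Set
open scoped ZFSet

namespace SE.UZ

open SF

theorem pf_SM : T_SM := by
  have hm : ∀ I J z, z ∈ sm I J ↔
      (∃ x ∈ I, z = ZFSet.pair (nS 0) x) ∨ ∃ x ∈ J, z = ZFSet.pair (nS 1) x := by
    intro I J z
    unfold sm
    rw [ZFSet.mem_union, ZFSet.mem_prod, ZFSet.mem_prod]
    simp only [ZFSet.mem_singleton, exists_eq_left]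
  have h10 : nS 1 ≠ nS 0 := fun h => absurd (nS_inj.1 h) (by norm_num)
  have hs : Tm ZFm (fun _ v => sm (v 0) (v 1)) :=
    Tm.union (Tm.prod (Tm.sing (Tm.nS 0)) (Tm.var 0)) (Tm.prod (Tm.sing (Tm.nS 1)) (Tm.var 1))
  have hsf : Tm ZFm (fun _ v => sf (v 0) (v 1) (v 2) (v 3)) := by
    refine Tm.resS (g := fun _ u => sel (fst (u 0) = nS 0) (app (u 3) (snd (u 0)))
      (app (u 4) (snd (u 0)))) hs ?_
    exact Tm.sel (Dfb.eq (Tm.fst (Tm.var 0)) (Tm.nS 0)) (Tm.app (Tm.var 3) (Tm.snd (Tm.var 0)))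
      (Tm.app (Tm.var 4) (Tm.snd (Tm.var 0)))
  refine ⟨hm, ?_, ?_⟩
  · intro I J F F'
    constructor
    · intro x hx
      unfold sf
      rw [app_resS ((hm I J _).2 (Or.inl ⟨x, hx, rfl⟩)), fst_pair, snd_pair, sel_pos rfl]
    · intro x hx
      unfold sf
      rw [app_resS ((hm I J _).2 (Or.inr ⟨x, hx, rfl⟩)), fst_pair, snd_pair, sel_neg h10]
  · intro D hD
    have zN : ZFm D.N := hD.zfc.toZFCm.toZFm
    refine ⟨?_, ?_, ?_⟩
    · intro I J hI hJ
      exact hs.1 D.N zN (cons I (cons J fun _ => ∅))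
        (In.cons (In.cons (fun _ => zN.mempty) hJ) hI)
    · intro I J hI hJ
      exact hs.1 (· ∈ D.H) hD.zfH (cons I (cons J fun _ => ∅))
        (In.cons (In.cons (fun _ => hD.zfH.mempty) hJ) hI)
    · intro I J F F' hI hJ hF hF'
      exact hsf.1 D.N zN (cons I (cons J (cons F (cons F' fun _ => ∅))))
        (In.cons (In.cons (In.cons (In.cons (fun _ => zN.mempty) hF') hF) hJ) hI)

end SE.UZ
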